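import Pool.Graph.R_seed8.TH227.TM.Meas
import Pool.Agent.H655.CM.Lang

/-!
Reduction of homeomorphism of manifolds in one dimension to homeomorphism in another dimension.
-/

open Set Filter Topology
open scoped MeasureTheory

namespace Pool.Agent.H655.TM

open Pool.Agent.H655.CM

variable {E : Type} [NormedAddCommGroup E] [NormedSpace ℝ E]

/-- The topological atlas underlying a smooth atlas. -/
def forget (c : Pool.Agent.TH227.CM.Code E) : Code E where
  V := c.V
  φ := c.φ
  isOpen := c.isOpen
  sub := c.sub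
  refl := c.refl
  cocycle := c.cocycle
  cont i j := (c.smooth i j).continuousOn
  off := c.off
  haus := c.haus

theorem forget_M (c : Pool.Agent.TH227.CM.Code E) : M (forget c) = Pool.Agent.TH227.CM.M c := rfl

/-- The underlying topological manifold is unchanged. -/
def forgetHomeo (c : Pool.Agent.TH227.CM.Code E) : c.Pts ≃ₜ (forget c).Pts where
  toFun z := ⟨z.val, z.mem⟩
  invFun z := ⟨z.val, z.mem⟩
  left_inv _ := rfl
  right_inv _ := rfl
  continuous_toFun := by
    rw [continuous_def]
    intro U hU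
    rw [Code.isOpen_iff] at hU
    rw [Pool.Agent.TH227.CM.Code.isOpen_iff]
    exact hU
  continuous_invFun := by
    rw [continuous_def]
    intro U hU
    rw [Pool.Agent.TH227.CM.Code.isOpen_iff] at hU
    rw [Code.isOpen_iff]
    exact hU

theorem forget_meas : Measurable (forget : Pool.Agent.TH227.CM.Code E → Code E) := by
  refine measurable_generateFrom ?_
  rintro A (⟨i, j, S, hS, rfl⟩ | ⟨i, j, x, B, hB, rfl⟩)
  · exact Pool.Agent.TH227.CM.meas_compact i j hS
  · exact Pool.Agent.TH227.CM.meas_val i j x hB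

/-- The indexing of the names. -/
noncomputable def eN : ℕ ≃ Nm := (nonempty_equiv_of_countable (α := ℕ) (β := Nm)).some

variable {E₁ : Type} [NormedAddCommGroup E₁] [NormedSpace ℝ E₁] [FiniteDimensional ℝ E₁]

/-- The relations attached to a code, indexed by natural numbers. -/
noncomputable def relC (c : Code E₁) (j a b : ℕ) : Prop :=
  ∃ S : Sym, (exists_injective_nat Sym).choose S = j ∧ RR c S (eN a) (eN b)

theorem relC_meas (j a b : ℕ) : MeasurableSet {c : Code E₁ | relC c j a b} := by
  have : {c : Code E₁ | relC c j a b} = ⋃ S : Sym, {c : Code E₁ |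
      c ∈ {c : Code E₁ | RR c S (eN a) (eN b)} ∧ (exists_injective_nat Sym).choose S = j} := by
    ext c
    simp only [mem_iUnion, mem_ofPred_eq]
    constructor
    · rintro ⟨S, h1, h2⟩
      exact ⟨S, h2, h1⟩
    · rintro ⟨S, h2, h1⟩
      exact ⟨S, h1, h2⟩
  rw [this]
  refine MeasurableSet.iUnion fun S => ?_
  by_cases h : (exists_injective_nat Sym).choose S = j
  · have h2 : {c : Code E₁ | c ∈ {c : Code E₁ | RR c S (eN a) (eN b)} ∧
        (exists_injective_nat Sym).choose S = j} = {c : Code E₁ | RR c S (eN a) (eN b)} := by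
      ext c
      simp [h]
    rw [h2]
    exact RR_meas S _ _
  · have h2 : {c : Code E₁ | c ∈ {c : Code E₁ | RR c S (eN a) (eN b)} ∧
        (exists_injective_nat Sym).choose S = j} = ∅ := by
      ext c
      simp [h]
    rw [h2]
    exact MeasurableSet.empty

theorem meas_relC : Measurable (relC : Code E₁ → ℕ → ℕ → ℕ → Prop) :=
  measurable_pi_lambda _ fun j => measurable_pi_lambda _ fun a => measurable_pi_lambda _ fun b =>
    measurableSet_setOfPred.1 (relC_meas j a b)

theorem relC_iff (c c' : Code E₁) :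
    Nonempty (c.Pts ≃ₜ c'.Pts) ↔
      ∃ σ : ℕ ≃ ℕ, ∀ j a b, relC c j a b ↔ relC c' j (σ a) (σ b) := by
  have hinj := (exists_injective_nat Sym).choose_spec
  rw [← iso_iff_homeomorph, iso_iff]
  constructor
  · rintro ⟨σ, hσ⟩
    refine ⟨(eN.trans σ).trans eN.symm, ?_⟩
    intro j a b
    refine exists_congr fun S => and_congr_right fun _ => ?_
    show RR c S (eN a) (eN b) ↔ RR c' S (eN (eN.symm (σ (eN a)))) (eN (eN.symm (σ (eN b))))
    rw [eN.apply_symm_apply, eN.apply_symm_apply]
    exact hσ S (eN a) (eN b)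
  · rintro ⟨σ, hσ⟩
    refine ⟨(eN.symm.trans σ).trans eN, ?_⟩
    intro S a b
    have h := hσ ((exists_injective_nat Sym).choose S) (eN.symm a) (eN.symm b)
    have key : ∀ (c : Code E₁) (a b : ℕ), relC c ((exists_injective_nat Sym).choose S) a b ↔
        RR c S (eN a) (eN b) := by
      intro c a b
      constructor
      · rintro ⟨S', h1, h2⟩
        rw [hinj h1] at h2
        exact h2
      · intro h2
        exact ⟨S, rfl, h2⟩
    rw [key, key, eN.apply_symm_apply, eN.apply_symm_apply] at h
    exact h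

section red

variable {E : Type} [NormedAddCommGroup E] [InnerProductSpace ℝ E] [FiniteDimensional ℝ E]

/-- The code of the manifold attached to a structure. -/
noncomputable def tc (P : Pool.Agent.TH227.TM.Fr E) (R : ℕ → ℕ → ℕ → Prop) : Code E :=
  forget (Pool.Agent.TH227.TM.mcode P R)

theorem tc_meas (P : Pool.Agent.TH227.TM.Fr E) : Measurable (tc P) :=
  forget_meas.comp (Pool.Agent.TH227.TM.meas_mcode P)

theorem tc_connected (P : Pool.Agent.TH227.TM.Fr E) (R : ℕ → ℕ → ℕ → Prop) :
    ConnectedSpace (tc P R).Pts := by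
  have h := Pool.Agent.TH227.TM.mcode_connected P R
  exact (forgetHomeo (Pool.Agent.TH227.TM.mcode P R)).surjective.connectedSpace
    (forgetHomeo (Pool.Agent.TH227.TM.mcode P R)).continuous

theorem tc_iff (P : Pool.Agent.TH227.TM.Fr E) (R R' : ℕ → ℕ → ℕ → Prop) :
    Nonempty ((tc P R).Pts ≃ₜ (tc P R').Pts) ↔
      ∃ σ : ℕ ≃ ℕ, ∀ j a b, R j a b ↔ R' j (σ a) (σ b) := by
  constructor
  · rintro ⟨D⟩
    obtain ⟨H⟩ := Pool.Agent.TH227.TM.path_homeo (P := P) (P' := P)
      (Pool.Agent.TH227.TM.CT_tree (Pool.Agent.TH227.TM.kap R))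
      (Pool.Agent.TH227.TM.CT_tree (Pool.Agent.TH227.TM.kap R'))
      (((forgetHomeo _).trans D).trans (forgetHomeo _).symm)
    exact Pool.Agent.TH227.TM.iso_of_homeo H
  · intro h
    obtain ⟨D⟩ := (Pool.Agent.TH227.TM.mcode_iff P R R').2 h
    exact ⟨((forgetHomeo _).symm.trans D.toHomeomorph).trans (forgetHomeo _)⟩

/-- The reduction of homeomorphism in one dimension to homeomorphism in another dimension. -/
theorem reduction (P : Pool.Agent.TH227.TM.Fr E) : ∃ F : Code E₁ → Code E, Measurable F ∧
    (∀ c, ConnectedSpace (F c).Pts) ∧ ∀ c c' : Code E₁,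
      (Nonempty (c.Pts ≃ₜ c'.Pts) ↔ Nonempty ((F c).Pts ≃ₜ (F c').Pts)) :=
  ⟨fun c => tc P (relC c), (tc_meas P).comp meas_relC, fun c => tc_connected P (relC c),
    fun c c' => (relC_iff c c').trans (tc_iff P (relC c) (relC c')).symm⟩

end red

end Pool.Agent.H655.TM
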